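import Pool.Agent.SGK.Stmts

set_option autoImplicit false

namespace Pool.Agent.SGK.H8

open Pool.Agent.SGE Pool.Agent.SGK

theorem stp (hC : CbStmt) (hK : KxmStmt) : StpStmt := by
  intro V a b P Q mid p q v S h hva hvb hv
  obtain ⟨hab, -, -, hcon, -, hS⟩ := hC h
  have f2 : ∀ y ∈ S, ∀ u ∈ y.2, u ≠ v := by
    intro y hy u hu huv
    rcases (hS y hy).2.2.2.2.2 u hu with h1 | h1 | ⟨z, hz, h1⟩
    · exact hva (huv ▸ h1)
    · exact hvb (huv ▸ h1)
    · exact hv z hz (h1.trans huv)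
  have f3 : ∀ u ∈ P ++ p :: (mid ++ q :: Q), u ≠ v := by
    intro u hu huv
    rcases hcon u hu with h1 | h1 | ⟨z, hz, h1⟩
    · exact hva (huv ▸ h1)
    · exact hvb (huv ▸ h1)
    · exact hv z hz (h1.trans huv)
  have hp : p ≠ v := f3 p (by simp)
  have hq : q ≠ v := f3 q (by simp)
  have hl : ∀ m ∈ p :: (mid ++ [q]), m ≠ v := by
    intro m hm
    apply f3
    simp only [List.mem_cons, List.mem_append, List.not_mem_nil, or_false] at hm ⊢
    tauto
  have hpq : HX a b S p q := by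
    have h1 := (List.pairwise_append.1 (hK h)).2.1
    exact (List.pairwise_cons.1 h1).1 q (by simp)
  have gx : ∀ u w, GX a b ((v, p :: (mid ++ [q])) :: S) u w ↔
      GX a b S u w ∨ (u = p ∧ w = v) ∨ (u = v ∧ w = q) := by
    intro u w
    unfold GX
    constructor
    · rintro (h1 | ⟨ℓ, h1, h2⟩ | ⟨ℓ, h1, h2⟩)
      · exact Or.inl (Or.inl h1)
      · rcases List.mem_cons.1 h1 with h3 | h3
        · obtain ⟨e1, e2⟩ := Prod.mk.inj h3
          subst e1 e2
          right; left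
          simp only [List.head?_cons, Option.some.injEq] at h2
          exact ⟨h2.symm, rfl⟩
        · exact Or.inl (Or.inr (Or.inl ⟨ℓ, h3, h2⟩))
      · rcases List.mem_cons.1 h1 with h3 | h3
        · obtain ⟨e1, e2⟩ := Prod.mk.inj h3
          subst e1 e2
          right; right
          have h4 : (p :: (mid ++ [q])).getLast? = some q := by
            rw [← List.cons_append]
            exact List.getLast?_concat ..
          rw [h4, Option.some.injEq] at h2
          exact ⟨rfl, h2.symm⟩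
        · exact Or.inl (Or.inr (Or.inr ⟨ℓ, h3, h2⟩))
    · rintro ((h1 | ⟨ℓ, h1, h2⟩ | ⟨ℓ, h1, h2⟩) | ⟨rfl, rfl⟩ | ⟨rfl, rfl⟩)
      · exact Or.inl h1
      · exact Or.inr (Or.inl ⟨ℓ, List.mem_cons_of_mem _ h1, h2⟩)
      · exact Or.inr (Or.inr ⟨ℓ, List.mem_cons_of_mem _ h1, h2⟩)
      · exact Or.inr (Or.inl ⟨_, List.mem_cons_self, rfl⟩)
      · refine Or.inr (Or.inr ⟨_, List.mem_cons_self, ?_⟩)
        rw [← List.cons_append]
        exact List.getLast?_concat ..
  have gxv : ∀ u w, GX a b S u w → u ≠ v ∧ w ≠ v := by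
    rintro u w (⟨rfl, rfl⟩ | ⟨ℓ, h1, h2⟩ | ⟨ℓ, h1, h2⟩)
    · exact ⟨hva.symm, hvb.symm⟩
    · exact ⟨f2 _ h1 u (List.mem_of_mem_head? h2), hv _ h1⟩
    · exact ⟨hv _ h1, f2 _ h1 w (List.mem_of_getLast? h2)⟩
  have hxv : ∀ u w, HX a b S u w → u ≠ v ∧ w ≠ v := by
    intro u w h1
    constructor
    · obtain ⟨c, h2, -⟩ := Relation.TransGen.head'_iff.1 h1
      exact (gxv _ _ h2).1
    · obtain ⟨c, -, h2⟩ := Relation.TransGen.tail'_iff.1 h1
      exact (gxv _ _ h2).2
  have mono : ∀ u w, HX a b S u w → HX a b ((v, p :: (mid ++ [q])) :: S) u w := by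
    intro u w h1
    exact Relation.TransGen.mono (fun x y hxy => (gx x y).2 (Or.inl hxy)) _ _ h1
  have clA : ∀ w, w ≠ v → ∀ u, HX a b ((v, p :: (mid ++ [q])) :: S) u w →
      (u ≠ v → HX a b S u w) ∧ (u = v → q = w ∨ HX a b S q w) := by
    intro w hw u h1
    induction h1 using Relation.TransGen.head_induction_on with
    | single h2 =>
      rcases (gx _ _).1 h2 with h3 | ⟨-, h3⟩ | ⟨h3, h4⟩
      · exact ⟨fun _ => Relation.TransGen.single h3, fun h4 => absurd h4 (gxv _ _ h3).1⟩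
      · exact absurd h3 hw
      · exact ⟨fun h5 => absurd h3 h5, fun _ => Or.inl h4.symm⟩
    | head h2 h3 ih =>
      rcases (gx _ _).1 h2 with h4 | ⟨h4, h5⟩ | ⟨h4, h5⟩
      · exact ⟨fun _ => Relation.TransGen.head h4 (ih.1 (gxv _ _ h4).2),
          fun h5 => absurd h5 (gxv _ _ h4).1⟩
      · constructor
        · intro _
          rw [h4]
          rcases ih.2 h5 with h6 | h6
          · rw [← h6]; exact hpq
          · exact Relation.TransGen.trans hpq h6
        · intro h6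
          exact absurd (h4.symm.trans h6) hp
      · refine ⟨fun h6 => absurd h4 h6, fun _ => Or.inr ?_⟩
        rw [← h5]
        exact ih.1 (by rw [h5]; exact hq)
  have gy : ∀ u w, GY ((v, p :: (mid ++ [q])) :: S) u w ↔
      GY S u w ∨ (w = v ∧ u ∈ p :: (mid ++ [q])) := by
    intro u w
    unfold GY
    constructor
    · rintro ⟨ℓ, h1, h2⟩
      rcases List.mem_cons.1 h1 with h3 | h3
      · obtain ⟨e1, e2⟩ := Prod.mk.inj h3
        subst e1 e2
        exact Or.inr ⟨rfl, h2⟩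
      · exact Or.inl ⟨ℓ, h3, h2⟩
    · rintro (⟨ℓ, h1, h2⟩ | ⟨rfl, h2⟩)
      · exact ⟨ℓ, List.mem_cons_of_mem _ h1, h2⟩
      · exact ⟨_, List.mem_cons_self, h2⟩
  have gyv : ∀ u w, GY S u w → u ≠ v ∧ w ≠ v := by
    rintro u w ⟨ℓ, h1, h2⟩
    exact ⟨f2 _ h1 u h2, hv _ h1⟩
  have hyv : ∀ u w, HY S u w → u ≠ v ∧ w ≠ v := by
    intro u w h1
    constructor
    · obtain ⟨c, h2, -⟩ := Relation.TransGen.head'_iff.1 h1
      exact (gyv _ _ h2).1
    · obtain ⟨c, -, h2⟩ := Relation.TransGen.tail'_iff.1 h1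
      exact (gyv _ _ h2).2
  have monoY : ∀ u w, HY S u w → HY ((v, p :: (mid ++ [q])) :: S) u w := by
    intro u w h1
    exact Relation.TransGen.mono (fun x y hxy => (gy x y).2 (Or.inl hxy)) _ _ h1
  have clB : ∀ w, w ≠ v → ∀ u, HY ((v, p :: (mid ++ [q])) :: S) u w → HY S u w := by
    intro w hw u h1
    induction h1 using Relation.TransGen.head_induction_on with
    | single h2 =>
      rcases (gy _ _).1 h2 with h3 | ⟨h3, -⟩
      · exact Relation.TransGen.single h3
      · exact absurd h3 hw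
    | head h2 h3 ih =>
      rcases (gy _ _).1 h2 with h4 | ⟨h4, -⟩
      · exact Relation.TransGen.head h4 ih
      · exact absurd h4 (hyv _ _ ih).1
  refine ⟨?_, ?_, ?_, ?_, ?_, ?_⟩
  · intro u w hu hw
    exact ⟨fun h1 => (clA w hw u h1).1 hu, mono u w⟩
  · intro u hu
    constructor
    · intro h1
      obtain ⟨c, h2, h3⟩ := Relation.TransGen.tail'_iff.1 h1
      rcases (gx _ _).1 h3 with h4 | ⟨h4, -⟩ | ⟨-, h4⟩
      · exact absurd rfl (gxv _ _ h4).2
      · subst h4
        rcases Relation.reflTransGen_iff_eq_or_transGen.1 h2 with h5 | h5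
        · exact Or.inl h5.symm
        · exact Or.inr ((clA _ hp u h5).1 hu)
      · exact absurd h4.symm hq
    · rintro (rfl | h1)
      · exact Relation.TransGen.single ((gx _ _).2 (Or.inr (Or.inl ⟨rfl, rfl⟩)))
      · exact Relation.TransGen.tail (mono _ _ h1) ((gx _ _).2 (Or.inr (Or.inl ⟨rfl, rfl⟩)))
  · intro w hw
    constructor
    · intro h1
      rcases (clA w hw v h1).2 rfl with h2 | h2
      · exact Or.inl h2.symm
      · exact Or.inr h2
    · rintro (rfl | h1)
      · exact Relation.TransGen.single ((gx _ _).2 (Or.inr (Or.inr ⟨rfl, rfl⟩)))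
      · exact Relation.TransGen.head ((gx _ _).2 (Or.inr (Or.inr ⟨rfl, rfl⟩))) (mono _ _ h1)
  · intro u w _ hw
    exact ⟨clB w hw u, monoY u w⟩
  · intro u
    constructor
    · intro h1
      obtain ⟨c, h2, h3⟩ := Relation.TransGen.tail'_iff.1 h1
      rcases (gy _ _).1 h3 with h4 | ⟨-, h4⟩
      · exact absurd rfl (gyv _ _ h4).2
      · refine ⟨c, h4, ?_⟩
        rcases Relation.reflTransGen_iff_eq_or_transGen.1 h2 with h5 | h5
        · exact Or.inl h5.symm
        · exact Or.inr (clB c (hl c h4) u h5)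
    · rintro ⟨m, hm, rfl | h1⟩
      · exact Relation.TransGen.single ((gy _ _).2 (Or.inr ⟨rfl, hm⟩))
      · exact Relation.TransGen.tail (monoY _ _ h1) ((gy _ _).2 (Or.inr ⟨rfl, hm⟩))
  · intro w h1
    obtain ⟨c, h2, -⟩ := Relation.TransGen.head'_iff.1 h1
    rcases (gy _ _).1 h2 with h3 | ⟨-, h3⟩
    · exact (gyv _ _ h3).1 rfl
    · exact hl v h3 rfl

end Pool.Agent.SGK.H8
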